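import Pool.Agent.Lib.MP_c3d1b0_coN.Core

set_option autoImplicit false

/-!
# No closed form for the number of Eulerian circuits of the complete graph on 2s+1 points

For `s = M t + r`, the number `ec (K_{2s+1})` is not equal, for all large `t`, to
`q ^ (t (t - 1) / 2) * ∏ i, ((a_i t + b_i)!) ^ (c_i t + d_i) * h t`
with a fixed finite number of integers `a_i ≥ 1`, `b_i`, `c_i`, `d_i`, a rational number `q`, and a
sequence `h` of rational numbers that is holonomic, or more generally of the form `h t = z / D` with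
integers `z`, `D ≥ 1` of absolute value at most `t ^ (C t)` and `D` divisible by `2` at most `C t` times.
-/

namespace Pool.Agent.Results.MP_c3d1b0_co.NoClosedForm

open Filter Finset

theorem result (M r : ℕ) (hM : 0 < M) :
    ¬ ∃ (k : ℕ) (a : Fin k → ℕ) (b c d : Fin k → ℤ) (q : ℚ) (h : ℕ → ℚ),
      (∀ i, 0 < a i) ∧
      ((∃ (J : ℕ) (P : Fin (J + 1) → Polynomial ℚ), P (Fin.last J) ≠ 0 ∧
          ∀ᶠ t : ℕ in atTop, ∑ j : Fin (J + 1), (P j).eval (t : ℚ) * h (t + j) = 0) ∨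
        ∃ C : ℕ, ∀ᶠ t : ℕ in atTop, ∃ (D : ℕ) (z : ℤ), 0 < D ∧ D ≤ t ^ (C * t) ∧
          padicValNat 2 D ≤ C * t ∧ (D : ℚ) * h t = z ∧ z.natAbs ≤ t ^ (C * t)) ∧
      ∀ᶠ t : ℕ in atTop,
        ((Nat.card {w : Fin ((M * t + r) * (2 * (M * t + r) + 1) + 1) → Fin (2 * (M * t + r) + 1) //
            w 0 = w (Fin.last ((M * t + r) * (2 * (M * t + r) + 1))) ∧
            ∀ u v : Fin (2 * (M * t + r) + 1), u ≠ v →
              ∃! i : Fin ((M * t + r) * (2 * (M * t + r) + 1)),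
                (w i.castSucc = u ∧ w i.succ = v) ∨ (w i.castSucc = v ∧ w i.succ = u)}
            / ((M * t + r) * (2 * (M * t + r) + 1)) : ℕ) : ℚ) =
          q ^ (t * (t - 1) / 2) *
            (∏ i, ((Nat.factorial ((a i : ℤ) * t + b i).toNat : ℕ) : ℚ) ^ (c i * (t : ℤ) + d i)) * h t := by
  rintro ⟨k, a, b, c, d, q, h, ha, hh, hrep⟩
  have hB : ∃ C : ℕ, Pool.Agent.MP_c3d1b0N.HBound h C := by
    rcases hh with hh | hh
    · exact Pool.Agent.MP_c3d1b0N.hbound_of_holonomic h hh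
    · exact hh
  obtain ⟨C, hB⟩ := hB
  exact Pool.Agent.MP_c3d1b0N.no_rep M r hM a b c d q h ha hB hrep

end Pool.Agent.Results.MP_c3d1b0_co.NoClosedForm
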