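import Pool.Agent.Lib.MP_c3d1b0_co.Ec
import Pool.Agent.Lib.MP_c3d1b0_co.Odd

set_option autoImplicit false

/-!
# Odd prime divisors of the number of Eulerian circuits of the complete graph on 2s+1 points
-/

namespace Pool.Agent.Results.MP_c3d1b0_co.OddPrimeDivisors

open Pool.Agent.MP_c3d1b0

/-- For every `s ≥ 1` and every odd prime `q < 2 s + 1`, the number `s (2 s + 1) ((s - 1)!) ^ (2 s + 1) q` divides
the number of closed walks of the complete graph on `2 s + 1` points that use each edge exactly once (with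
marked start), which is `s (2 s + 1)` times the number of Eulerian circuits. -/
theorem result (s : ℕ) (hs : 0 < s) (q : ℕ) (hq : q.Prime) (hq2 : q ≠ 2) (hlt : q < 2 * s + 1) :
    s * (2 * s + 1) * ((Nat.factorial (s - 1)) ^ (2 * s + 1) * q) ∣
      Nat.card {w : Fin (s * (2 * s + 1) + 1) → Fin (2 * s + 1) //
        w 0 = w (Fin.last (s * (2 * s + 1))) ∧
        ∀ a b : Fin (2 * s + 1), a ≠ b →
          ∃! i : Fin (s * (2 * s + 1)),
            (w i.castSucc = a ∧ w i.succ = b) ∨ (w i.castSucc = b ∧ w i.succ = a)} := by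
  rw [card_walks hs 0]
  exact mul_dvd_mul_left _ (mul_dvd_mul_left _
    (odd_dvd_EE hq hq2 hlt (Fin (2 * s + 1)) (Fintype.card_fin _) 0))

end Pool.Agent.Results.MP_c3d1b0_co.OddPrimeDivisors
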