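import Pool.Agent.Lib.MP_c3d1b0_co.Ec
import Pool.Agent.Lib.MP_c3d1b0_co.Wief5

set_option autoImplicit false

/-!
# The number of Eulerian circuits of the complete graph on p points modulo the prime p
-/

namespace Pool.Agent.Results.MP_c3d1b0_co.PrimeOrder

open Pool.Agent.MP_c3d1b0

/-- For every prime `p = 2 s + 1` (with `s ≥ 1`) the number of closed walks of the complete graph on `p` points
that use each edge exactly once (with marked start) is `s p e`, where the number `e` of Eulerian circuits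
satisfies `p e ≡ (s - 1)! ((2 / p) - 2 ^ s)` modulo `p ^ 2`, which gives `e` modulo `p`, and `p` divides `e`
exactly when `p ^ 2` divides `2 ^ (p - 1) - 1`. -/
theorem result (s p : ℕ) [Fact p.Prime] (hs : 0 < s) (hp : p = 2 * s + 1) :
    ∃ e : ℕ, Nat.card {w : Fin (s * (2 * s + 1) + 1) → Fin (2 * s + 1) //
      w 0 = w (Fin.last (s * (2 * s + 1))) ∧
      ∀ a b : Fin (2 * s + 1), a ≠ b →
        ∃! i : Fin (s * (2 * s + 1)),
          (w i.castSucc = a ∧ w i.succ = b) ∨ (w i.castSucc = b ∧ w i.succ = a)} =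
        s * (2 * s + 1) * e ∧
    (p : ℤ) * (e : ℤ) ≡ (Nat.factorial (s - 1) : ℤ) * (legendreSym p 2 - 2 ^ s) [ZMOD (p : ℤ) ^ 2] ∧
    (p ∣ e ↔ p ^ 2 ∣ 2 ^ (p - 1) - 1) := by
  have e : Fin (2 * s + 1) ≃ ZMod p := by
    have hc : Fintype.card (Fin (2 * s + 1)) = Fintype.card (ZMod p) := by
      rw [Fintype.card_fin, ZMod.card, hp]
    exact Fintype.equivOfCardEq hc
  have h1 : ec s = (Nat.factorial (s - 1)) ^ (2 * s + 1) * EE (ZMod p) s 0 := by
    rw [ec_eq hs 0, EE_congr e s 0, EE_root s (e 0) 0]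
  have h2 := wief_main (p := p) hp hs
  rw [← h1] at h2
  exact ⟨ec s, (ec_mul hs).symm, h2, wief_iff hp hs h2⟩

end Pool.Agent.Results.MP_c3d1b0_co.PrimeOrder
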