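import Pool.Agent.Lib.MP_c3d1b0_co.Ec
import Pool.Agent.Lib.MP_c3d1b0_co.V9

set_option autoImplicit false

/-!
# The exact power of 2 in the number of Eulerian circuits of the complete graph on 2s+1 points
-/

namespace Pool.Agent.Results.MP_c3d1b0_co.TwoAdicValuation

open Pool.Agent.MP_c3d1b0

/-- For every `s ≥ 1` the number of closed walks of the complete graph on `2 s + 1` points that use each edge
exactly once (with marked start) is `s (2 s + 1) e`, where the number `e` of Eulerian circuits is not zero and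
has 2-adic valuation `(2 s + 1) v ((s - 1)!) + v ((2 s)!)`. -/
theorem result (s : ℕ) (hs : 0 < s) :
    ∃ e : ℕ, Nat.card {w : Fin (s * (2 * s + 1) + 1) → Fin (2 * s + 1) //
      w 0 = w (Fin.last (s * (2 * s + 1))) ∧
      ∀ a b : Fin (2 * s + 1), a ≠ b →
        ∃! i : Fin (s * (2 * s + 1)),
          (w i.castSucc = a ∧ w i.succ = b) ∨ (w i.castSucc = b ∧ w i.succ = a)} =
        s * (2 * s + 1) * e ∧
    e ≠ 0 ∧
    padicValNat 2 e =
      (2 * s + 1) * padicValNat 2 (Nat.factorial (s - 1)) + padicValNat 2 (Nat.factorial (2 * s)) := by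
  obtain ⟨h1, h2⟩ := EE_val hs
  have h3 : ec s = (Nat.factorial (s - 1)) ^ (2 * s + 1) * EE (Fin (2 * s + 1)) s 0 := ec_eq hs 0
  have hf : (Nat.factorial (s - 1)) ^ (2 * s + 1) ≠ 0 := pow_ne_zero _ (Nat.factorial_ne_zero _)
  have hv2 : Fact (Nat.Prime 2) := ⟨Nat.prime_two⟩
  refine ⟨ec s, (ec_mul hs).symm, ?_, ?_⟩
  · rw [h3]
    exact mul_ne_zero hf h2
  · rw [h3, padicValNat.mul hf h2, padicValNat.pow, h1]

end Pool.Agent.Results.MP_c3d1b0_co.TwoAdicValuation
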